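import Pool.Agent.Y741.LGGL

/-!
MP_64ff02_ag, Q1: the algebraic special set of very general pairs in projective space, in the range
`3 n + 3 ≤ 2 ∑ d_a + |C|`; these pairs are strongly of log general type.

Let `H_a`, for `a` in a finite set `A`, be forms of degrees `d_a > 0` in `n + 1` variables over the
complex numbers whose coefficients are, for all `a` together, algebraically independent over the
rational numbers (this holds outside of countably many proper closed subsets of the space of
coefficients). Let `C` be a proper subset of `A`, let `V` be the complete intersection `H_c = 0`,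
`c ∈ C`, in projective space of dimension `n` (all of projective space for empty `C`), let `D` be the
union of the hypersurface sections `H_b = 0`, `b ∉ C`, and `X = V ∖ D`, which is smooth, and
irreducible of dimension `n - |C|` for `|C| < n`. An exceptional line is a line contained in `V` that
meets `D` in at most two points.

Suppose that `3 n + 3 ≤ 2 ∑ d_a + |C|`. For `|C| < n` this implies `∑ d_a ≥ n + 2`, that is, `X` is of
log general type. Then, for every form `G`:

(1) all closed subvarieties of `X` of positive dimension that are not contained in `G = 0` are of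
    log general type if and only if all exceptional lines are contained in `G = 0`. In other words:
    the closure of the union of all closed subvarieties of positive dimension that are not of log
    general type is the closure of the union of the exceptional lines;
(2) every closed subvariety `Y` of `X` of positive dimension `≥ 2 n + 2 - (∑ d_a + |C|)` is of log
    general type, and is not contained in `G = 0` for some `G` as in (1). For `|C| < n` this
    includes `Y = X`: thus `X` is of log general type (i) and strongly of log general type (iv);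
(3) if all nonconstant entire curves in `X` are contained in `G = 0`, or if all holomorphic maps of
    the punctured disc to `X` that do not extend to the disc have image in `G = 0`, then `G` is as
    in (1). So each of the properties (ii) and (iii) of `X`, with the exceptional set `Ξ`, implies
    (iv) with the same `Ξ`;
(4) if `∑_{c ∈ C} (d_c + 1) ≤ 2 n - 2` (for instance for `V` the projective space), then all closed
    subvarieties of `X` of positive dimension are of log general type if and only if
    `2 n + 1 ≤ ∑ d_a + |C|`. This is true without the condition on `C` if `2 n + 1 ≤ ∑ d_a + |C|`.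

A closed subvariety of `X` of dimension `w` is given by its generic point `y`, in homogeneous
coordinates, over its function field `K` or a finite extension of it. A prime divisor `Q` over its
closure has its centre in `D` if `d_b min_i ord_Q (y_i) < ord_Q (H_b (y))` for some `b` not in `C`;
`pord Q y` is the minimum of the orders `ord_Q (y_i)`.
-/

set_option autoImplicit false

namespace Pool.Agent.Results.MP_64ff02_ag.GenericPairsSpecialSet

open MvPolynomial FF Pool.Agent.W603.PV Pool.Agent.W602.GT Pool.Agent.TH145.MG
open LinearAlgebra.Projectivization Metric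

/-- Very general forms of degrees `d a`. -/
def VeryGeneral {A : Type} {n : ℕ} (H : A → MvPolynomial (Fin (n + 1)) ℂ) (d : A → ℕ) : Prop :=
  (∀ a, (H a).IsHomogeneous (d a)) ∧
    AlgebraicIndependent ℚ fun p : (a : A) × {I : Fin (n + 1) →₀ ℕ // I.degree = d a} =>
      (H p.1).coeff p.2.1

/-- The point `x` of projective space, over a field `K`, is in `H c = 0` for `c ∈ C`, and not in
`H b = 0` for the other `b`. -/
def OnPair {A K : Type} [Field K] [Algebra ℂ K] {n : ℕ} (H : A → MvPolynomial (Fin (n + 1)) ℂ)
    (C : Finset A) (x : Fin (n + 1) → K) : Prop :=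
  x ≠ 0 ∧ (∀ c ∈ C, aeval x (H c) = 0) ∧ ∀ b, b ∉ C → aeval x (H b) ≠ 0

/-- A line, given by a vector space `W` of dimension two, that is contained in `H c = 0` for all
`c` in `C` and meets the union of the hypersurfaces `H b = 0`, `b ∉ C`, in at most two points. -/
def Exceptional {A : Type} {n : ℕ} (H : A → MvPolynomial (Fin (n + 1)) ℂ) (C : Finset A)
    (W : Submodule ℂ (Fin (n + 1) → ℂ)) : Prop :=
  (Module.finrank ℂ W = 2 ∧ ∀ c ∈ C, ∀ v ∈ W, eval v (H c) = 0) ∧
    {p : ℙ ℂ (Fin (n + 1) → ℂ) | p.rep ∈ W ∧ ∃ b, b ∉ C ∧ eval p.rep (H b) = 0}.encard ≤ 2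

/-- `K` is (a finite extension of) the function field, and `y` the generic point, of a closed
subvariety of dimension `w` of the pair. -/
def Subvariety {A K : Type} [Field K] [Algebra ℂ K] {n : ℕ}
    (H : A → MvPolynomial (Fin (n + 1)) ℂ) (C : Finset A) (w : ℕ) (y : Fin (n + 1) → K) : Prop :=
  OnPair H C y ∧ Algebra.trdeg ℂ K = w ∧ Algebra.IsAlgebraic (coords ℂ y) K

/-- The subvariety with generic point `y` is of log general type. -/
def LogGT {A K : Type} [Field K] [Algebra ℂ K] {n : ℕ} (H : A → MvPolynomial (Fin (n + 1)) ℂ)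
    (d : A → ℕ) (C : Finset A) (w : ℕ) (y : Fin (n + 1) → K) : Prop :=
  LogGeneralType ℂ K w fun Q : Place ℂ K =>
    ∃ b, b ∉ C ∧ d b * pord Q y < Q.ord (aeval y (H b))

/-- All closed subvarieties of positive dimension that are not contained in `G = 0` are of log
general type. -/
def LogGTOutside {A : Type} {n : ℕ} (H : A → MvPolynomial (Fin (n + 1)) ℂ) (d : A → ℕ)
    (C : Finset A) (G : MvPolynomial (Fin (n + 1)) ℂ) : Prop :=
  ∀ (K : Type) [Field K] [Algebra ℂ K] (w : ℕ) (y : Fin (n + 1) → K), 0 < w →
    Subvariety H C w y → aeval y G ≠ 0 → LogGT H d C w y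

/-- All nonconstant entire curves are contained in `G = 0`. -/
def BrodyOutside {A : Type} {n : ℕ} (H : A → MvPolynomial (Fin (n + 1)) ℂ) (C : Finset A)
    (G : MvPolynomial (Fin (n + 1)) ℂ) : Prop :=
  ∀ f : ℂ → Fin (n + 1) → ℂ, (∀ j, Differentiable ℂ fun z => f z j) → (∀ z, OnPair H C (f z)) →
    (∃ z w i j, f z i * f w j ≠ f z j * f w i) → ∀ z, eval (f z) G = 0

/-- The map from the punctured unit disc, in homogeneous coordinates, extends to the disc. -/
def Extends {n : ℕ} (f : ℂ → Fin (n + 1) → ℂ) : Prop :=
  ∃ g : ℂ → Fin (n + 1) → ℂ, DifferentiableOn ℂ g (ball 0 1) ∧ (∀ z ∈ ball (0 : ℂ) 1, g z ≠ 0) ∧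
    ∀ z ∈ ball (0 : ℂ) 1 \ {0}, ∃ c : ℂ, f z = c • g z

/-- All holomorphic maps from the punctured disc that do not extend have image in `G = 0`. -/
def PicardOutside {A : Type} {n : ℕ} (H : A → MvPolynomial (Fin (n + 1)) ℂ) (C : Finset A)
    (G : MvPolynomial (Fin (n + 1)) ℂ) : Prop :=
  ∀ f : ℂ → Fin (n + 1) → ℂ, DifferentiableOn ℂ f (ball 0 1 \ {0}) →
    (∀ z ∈ ball (0 : ℂ) 1 \ {0}, OnPair H C (f z)) → ¬ Extends f →
      ∀ z ∈ ball (0 : ℂ) 1 \ {0}, eval (f z) G = 0

theorem result {n : ℕ} (hn : 1 ≤ n) {A : Type} [Fintype A] [DecidableEq A] {d : A → ℕ}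
    (hd0 : ∀ a, 0 < d a) (C : Finset A) (hC : C ≠ Finset.univ)
    (hd : 3 * n + 3 ≤ 2 * ∑ a, d a + C.card)
    (H : A → MvPolynomial (Fin (n + 1)) ℂ) (hH : VeryGeneral H d) :
    -- (1) the algebraic special set is the closure of the union of the exceptional lines
    (∀ (G : MvPolynomial (Fin (n + 1)) ℂ) (e : ℕ), G.IsHomogeneous e →
      (LogGTOutside H d C G ↔ ∀ W, Exceptional H C W → ∀ v ∈ W, eval v G = 0)) ∧
    -- (2) log general type and strongly of log general type
    (∀ (K : Type) [Field K] [Algebra ℂ K] (w : ℕ) (y : Fin (n + 1) → K), 0 < w →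
      2 * n + 2 ≤ ∑ a, d a + C.card + w → Subvariety H C w y →
      LogGT H d C w y ∧ ∃ (G : MvPolynomial (Fin (n + 1)) ℂ) (e : ℕ),
        G.IsHomogeneous e ∧ aeval y G ≠ 0 ∧ LogGTOutside H d C G) ∧
    -- (3) entire curves and punctured discs
    (∀ (G : MvPolynomial (Fin (n + 1)) ℂ) (e : ℕ), G.IsHomogeneous e →
      (BrodyOutside H C G ∨ PicardOutside H C G) → LogGTOutside H d C G) ∧
    -- (4) the exact range in which all subvarieties are of log general type
    (2 * n + 1 ≤ ∑ a, d a + C.card → LogGTOutside H d C 1) ∧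
    (∑ c ∈ C, (d c + 1) ≤ 2 * (n - 1) →
      (LogGTOutside H d C 1 ↔ 2 * n + 1 ≤ ∑ a, d a + C.card)) := by
  obtain ⟨hG, hind⟩ := hH
  have hC' : ∃ b, b ∉ C := by
    by_contra hcon
    push Not at hcon
    exact hC (Finset.eq_univ_iff_forall.2 hcon)
  have h1 : ∀ (G : MvPolynomial (Fin (n + 1)) ℂ) (e : ℕ), G.IsHomogeneous e →
      (LogGTOutside H d C G ↔ ∀ W, Exceptional H C W → ∀ v ∈ W, eval v G = 0) := fun G e hGe =>
    Pool.Agent.Y741.strL_iff hn hd0 hG hind hC' hd hGe
  have h4 : LogGTOutside H d C 1 ↔ ∀ W, ¬ Exceptional H C W := by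
    rw [h1 1 0 (isHomogeneous_one _ _)]
    refine forall_congr' fun W => ⟨fun h hW => ?_, fun h hW => absurd hW h⟩
    have := h hW 0 W.zero_mem
    rw [map_one] at this
    exact one_ne_zero this
  refine ⟨h1, ?_, ?_, ?_, ?_⟩
  · intro K _ _ w y hw hdw hy
    obtain ⟨G, e, h5, h6, h7⟩ := Pool.Agent.Y741.strL_sub hn hd0 hG hind hC' hd hdw hy
    exact ⟨h7 K w y hw hy h6, G, e, h5, h6, h7⟩
  · rintro G e hGe (h | h)
    · exact (h1 G e hGe).2 fun W hW => Pool.Agent.Y741.ent_line hG hGe h hW
    · exact (h1 G e hGe).2 fun W hW => Pool.Agent.Y741.disc_line hG hGe h hW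
  · exact fun h => h4.2 (Pool.Agent.Y741.lf_none hG hind h)
  · exact fun h => h4.trans (Pool.Agent.Y741.lf_exact hn hd0 hG hind h)

end Pool.Agent.Results.MP_64ff02_ag.GenericPairsSpecialSet
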