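import Pool.Agent.Y190.SC.Cyc
import Pool.Agent.Y190.OP.Near

/-!
MP_64ff02_ag, Q1: the generalized Green-Griffiths-Lang conjecture for quasi-projective varieties
over the projective space of the polynomials of degree at most `n`, for which the SUM of the contact
orders with the hyperplanes of the polynomials which vanish at given numbers is zero or large, and
for all quasi-projective varieties which are generically finite over a closed subvariety of one of
the complete intersections `w j ^ d j = H (a j 1) * ... * H (a j (d j))`, `j < c`, in `P^(c+n)`, of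
linear degree.
-/

set_option autoImplicit false

open Pool.Agent.W602.Cov.R Pool.Agent.W602.GT Pool.Agent.TH152.HY Pool.Agent.Y191
open Pool.Agent.Y190.SC Pool.Agent.Y190.CI Pool.Agent.W603.BP Pool.Agent.H159R3.GGLLog
open Pool.Agent.Y190.AN

namespace Pool.Agent.Results.MP_64ff02_ag.LinearDegreeCovers

/-- (1) Let `a i`, `i < q`, be distinct complex numbers, and let `M` and `c i` be natural numbers
with `n * ∑ c i + 2 * n * M < q * M`. Let `X - D` be a quasi-projective variety, `X` and `D` closed
in `P^N × P^n`, of dimension `t ≥ 1`, which is generically finite over its image in `P^n`, the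
projective space of the polynomials of degree at most `n`, and not over one of the hyperplanes of
the polynomials which vanish at some `a i`. Suppose that, at all places with centre in `X - D`, the
contact orders `s i` with these hyperplanes are all zero or satisfy `M ≤ ∑ c i * s i`. Then `X - D`
is of log general type, and there is a proper closed subset `G = 0` of `X - D`, pulled back from
`P^n`, such that

* all holomorphic maps from the punctured disc to `X - D` whose image is not contained in `G = 0`
  extend to the disc (`X - D` is pseudo Picard hyperbolic);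
* all nonconstant entire curves in `X - D` lie in `G = 0` (`X - D` is pseudo Brody hyperbolic), and
  so do the images of all nonconstant meromorphic maps from the spaces `ℂ ^ g` which are holomorphic
  maps to `X - D` outside a set of codimension at least two;
* all closed subvarieties of `X - D` of positive dimension which are not contained in `G = 0` are of
  log general type (`X - D` is strongly of log general type).

If `X` is finite over its image in `P^n`, then `G = 0` is the preimage of the hyperplanes.

(2) Let `n`, `c`, `δ` be natural numbers with `n * (c + 2) < c * δ` and `3 * (n + 1) < δ + 3 * c`, let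
`d j ≥ δ` for `j < c`, and let `a j i` be distinct complex numbers (`Data`). Then the same
conclusions hold for all quasi-projective varieties `X - D` of positive dimension which are
generically finite over a closed subvariety, not contained in `w = 0`, of the complete intersection
`w j ^ d j = H (a j 1) * ... * H (a j (d j))`, `j < c`, in `P^(c+n)` (`H` is the polynomial whose
coefficients are the last `n + 1` coordinates).

(3) For the complete intersection itself all the special sets coincide: the closures of the unions
of the subvarieties of positive dimension which are not of general type, of the essential punctured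
discs, of the entire curves, of the images of the `ℂ ^ g`, of the images of the multiplicative
group, and of the lines. They are given by `w = 0` if `c < n`, and empty if `n ≤ c`.

(4) If `n ≤ c`, there is `ε > 0` such that all entire curves in the projective variety `{G = 0}` in
`P^(c+n)` are constant (`Brody`), for all forms `G j`, `j < c`, which differ by at most `ε` from the
forms `w j ^ d j - H (a j 1) * ... * H (a j (d j))` on the unit ball. Among these are smooth complete
intersections of general type, for instance of `n` hypersurfaces of degree `n + 3` in `P^(2n)`. -/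
theorem result :
    (∀ (N n q : ℕ) (a : Fin q → ℂ), Function.Injective a → ∀ (M : ℕ) (c : Fin q → ℕ),
      n * ∑ i, c i + 2 * n * M < q * M → ∀ (X D : BiSet N n), RamifiedSum X D a M c →
      ∀ (K : Type) [Field K] [Algebra ℂ K] (x : Fin (N + 1) → K) (y : Fin (n + 1) → K) (t : ℕ),
      X.FunctionField K x y → ¬ D.Mem x y →
      Algebra.IsAlgebraic
        (IntermediateField.adjoin ℂ {f : K | ∃ i j, y j ≠ 0 ∧ f = y i / y j}) K →
      Algebra.trdeg ℂ K = t → 1 ≤ t →
      (∀ i, lf (fun l : Fin (n + 1) => a i ^ (l : ℕ)) y ≠ 0) →
      ∃ (G : BiPoly N n) (E : ℕ), BiHom G 0 E ∧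
        (∃ u v, QMem X D u v ∧ MvPolynomial.eval (Sum.elim u v) G ≠ 0) ∧
        LogGeneralType ℂ K t (CentreIn D x y) ∧
        PicardOff X D G ∧ BrodyOff X D G ∧ SemiAbelianOff X D G ∧ LangOff X D G ∧
        (FiniteOver X → G = hyp N n a)) ∧
    ∀ (n c δ : ℕ) (d : Fin c → ℕ) (a : (j : Fin c) → Fin (d j) → ℂ), Data n c δ d a →
      (∀ (N : ℕ) (X D : BiSet N (c + n)), Over X a →
        ∀ (K : Type) [Field K] [Algebra ℂ K] (x : Fin (N + 1) → K) (y : Fin (c + n + 1) → K)
        (t : ℕ), X.FunctionField K x y → ¬ D.Mem x y →
        Algebra.IsAlgebraic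
          (IntermediateField.adjoin ℂ {f : K | ∃ i j, y j ≠ 0 ∧ f = y i / y j}) K →
        Algebra.trdeg ℂ K = t → 1 ≤ t → (∃ j : Fin c, y (Fin.castAdd (n + 1) j) ≠ 0) →
        ∃ (G : BiPoly N (c + n)) (E : ℕ), BiHom G 0 E ∧
          (∃ u v, QMem X D u v ∧ MvPolynomial.eval (Sum.elim u v) G ≠ 0) ∧
          LogGeneralType ℂ K t (CentreIn D x y) ∧
          PicardOff X D G ∧ BrodyOff X D G ∧ SemiAbelianOff X D G ∧ LangOff X D G) ∧
      (∀ (ι : Type) (F : ι → MvPolynomial (Fin (c + n + 1)) ℂ), (∀ e, IsForm (F e)) →
        Cone F = CompInt n a →
        SpAlg F = SpLine F ∧ SpP ∅ F = SpLine F ∧ SpH ∅ F = SpLine F ∧ SpCg ∅ F = SpLine F ∧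
          SpGm F = SpLine F ∧ (c < n → SpLine F = WZero F) ∧ (n ≤ c → SpLine F = ∅)) ∧
      (n ≤ c → ∃ ε : ℝ, 0 < ε ∧ ∀ G : Fin c → MvPolynomial (Fin (c + n + 1)) ℂ,
        (∀ j, IsForm (G j)) →
        (∀ j u, ‖u‖ ≤ 1 → ‖MvPolynomial.eval u (G j) - MvPolynomial.eval u (eqF n a j)‖ ≤ ε) →
        Pool.Agent.Y190.PH.Brody G) := by
  refine ⟨fun N n q a ha M c hM X D hR K _ _ x y t hK hD halg ht ht1 h0 => ?_,
    fun n c δ d a h => ⟨fun N X D hX K _ _ x y t hK hD halg ht ht1 hw => ?_,
      fun ι F hF hC => ?_, fun hnc => Pool.Agent.Y190.OP.near_ci hnc h.num h.inj⟩⟩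
  · exact final ha hM hR hK hD halg ht ht1 h0
  · obtain ⟨j, hj⟩ := hw
    exact over_ci h.num h.inj hX hK hD halg ht ht1 hj
  · obtain ⟨h1, h2, h3, h4, h5, h6⟩ := special_full h.num h.inj hF hC
    exact ⟨h1, h2, h3, h4, h5, fun hcn => (h6 hcn).trans wZero_eq,
      fun hcn => spLine_empty_ci hcn h.num h.inj hF hC.subset⟩

end Pool.Agent.Results.MP_64ff02_ag.LinearDegreeCovers
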