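import Pool.Agent.Y192.OG.EAll

/-!
MP_64ff02_ag, Q1: quasi-projective varieties over normal varieties of log general type which are
finite over subvarieties of algebraic tori, ramified over a hypersurface and highly ramified over
the boundary of projective space.
-/

set_option autoImplicit false

namespace Pool.Agent.Results.MP_64ff02_ag.ToricAlbaneseGGL

open MvPolynomial Pool.Agent.W602.Cov.R Pool.Agent.TH152.HY Pool.Agent.Y192.OG

/-- Let `K` be a finitely generated field over the complex numbers, `y i ≠ 0` the homogeneous
coordinates of a point of projective `n`-space over `K`, such that `K` is algebraic over the field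
generated by the `y i / y 0`, and `Q` a form of degree `q` with `Q(y) ≠ 0`. So `K` is the function
field of a normal variety `Y`, finite over a closed subvariety of the torus in projective space,
and the places `P` of `K` with `ord_P(y i) = ord_P(y 0)` for all `i` are those with a centre on `Y`.
Suppose that `K`, with the boundary consisting of all places without a centre on `Y` and of those
with `ord_P(Q(y) / y 0 ^ q) = 1`, is of log general type of dimension `d > 0` (so `Y`, minus the
components of multiplicity one of the divisor of `Q`, blown up so as to be disjoint, is of log
general type). Then there is a number `m` with the following property. Let `X - D` be any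
quasi-projective variety (`X` and `D` closed in a product of projective spaces, `L` the function
field of `X`, and `a`, `b` the coordinates of its generic point) with a morphism to projective
`n`-space, given by `b`, which is generically finite onto its image and factors through a dominant
rational map to `Y`, given by `σ`. Suppose that each point of `X - D` over the ring of a discrete
valuation, whose generic point is not over the coordinate hyperplanes, either has contact of order at
least `m` with a coordinate hyperplane, or has contact of order zero with all of them and does not
have contact of order one with `Q = 0`. Then `X - D` is of log general type, pseudo Picard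
hyperbolic and pseudo Brody hyperbolic. -/
theorem result (K : Type) [Field K] [Algebra ℂ K] [Algebra.EssFiniteType ℂ K] (n d q : ℕ)
    (y : Fin (n + 1) → K) (hy : ∀ i, y i ≠ 0) (Q : MvPolynomial (Fin (n + 1)) ℂ)
    (hQ : Q.IsHomogeneous q) (hQy : aeval y Q ≠ 0) (hd : 0 < d)
    (halg : ∀ z : K, IsAlgebraic (IntermediateField.adjoin ℂ (Set.range fun i => y i / y 0)) z)
    (hlgt : Pool.Agent.W602.GT.LogGeneralType ℂ K d (fun P => (∃ i, P.ord (y i) ≠ P.ord (y 0)) ∨
      P.ord (aeval y Q / y 0 ^ q) = 1)) :
    ∃ m : ℕ, ∀ (N : ℕ) (X D : BiSet N n), OrbOff X D Q q m →
      ∀ (L : Type) [Field L] [Algebra ℂ L] (a : Fin (N + 1) → L) (b : Fin (n + 1) → L),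
      X.FunctionField L a b → ¬ D.Mem a b →
      Algebra.IsAlgebraic
        (IntermediateField.adjoin ℂ {f : L | ∃ i j, b j ≠ 0 ∧ f = b i / b j}) L →
      ∀ σ : K →ₐ[ℂ] L, (∀ i j, σ (y i) * b j = σ (y j) * b i) →
      Pool.Agent.W602.GT.LogGeneralType ℂ L d (CentreIn D a b) ∧
      ∃ (B : BiPoly N n) (E E' : ℕ), BiHom B E E' ∧
        (∃ u v, QMem X D u v ∧ eval (Sum.elim u v) B ≠ 0) ∧ PicardOff X D B ∧ BrodyOff X D B :=
  thmE alg_all geo_all gen_all K n d q y hy Q hQ hQy hd halg hlgt

end Pool.Agent.Results.MP_64ff02_ag.ToricAlbaneseGGL
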