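import Pool.Agent.Y192.OG.Geo

/-!
MP_64ff02_ag, Q1: quasi-projective varieties over subvarieties of algebraic tori, ramified over a
hypersurface and highly ramified over the boundary of projective space.
-/

set_option autoImplicit false

namespace Pool.Agent.Results.MP_64ff02_ag.TorusOrbifoldGGL

open Pool.Agent.Y192.OG Pool.Agent.W601.SM Pool.Agent.W601.PH Pool.Agent.W603.BP Metric

/-- Let `V` be the irreducible closed subset of the torus `(ℂ*)^n` with the prime ideal `I`, in the
ring of Laurent polynomials, and let `f` be a Laurent polynomial which does not vanish on `V`, such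
that the scheme `V ∩ {f = 0}` is reduced. Suppose that no one-parameter subgroup `l ≠ 0` of the torus
leaves both `V` invariant and `f` invariant up to a character on `V`. Then there are a number `m`
and a proper closed subset `{G = 0}` of `V` with the following property. Let `X - D` be any
quasi-projective variety with a morphism to projective `n`-space which extends to the projective
compactification `X`, such that the points over the torus lie over `V` and each arc in `X - D` which
meets a coordinate hyperplane (the hypersurface `f = 0` in the torus) does so with multiplicity at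
least `m` (at least `2`, respectively). Then for every holomorphic map from the punctured disc
to `X - D`, which is not mapped to the coordinate hyperplanes and `{G = 0}`, the image in projective
space extends holomorphically to the disc. If moreover `X` is irreducible, the morphism is
generically finite onto its image, and the image of `X - D` is not contained in the coordinate
hyperplanes and `{G = 0}`, then `X - D` is pseudo-Picard hyperbolic and pseudo-Brody hyperbolic. -/
theorem result (n : ℕ) (I : Ideal (AddMonoidAlgebra ℂ (Fin n → ℤ))) (hI : I.IsPrime)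
    (f : AddMonoidAlgebra ℂ (Fin n → ℤ)) (hf : f ∉ I) (hred : (I ⊔ Ideal.span {f}).IsRadical)
    (hfin : ∀ l : Fin n → ℤ, l ≠ 0 → (∀ g ∈ I, ∀ k, wpart l k g ∈ I) →
      ∀ k, f - wpart l k f ∉ I) :
    ∃ (m : ℕ) (G : AddMonoidAlgebra ℂ (Fin n → ℤ)), G ∉ I ∧
      ∀ (N : ℕ) (X D : BiSet N n), Orb X D I f m →
        (∀ u v, QDisc X D u v →
          (∃ z ∈ ball (0 : ℂ) 1 \ {0}, (∀ i, v z i ≠ 0) ∧ lev G (tor (v z)) ≠ 0) → Extends v) ∧
        (X.Irred → X.GenFinite →
          (∃ u v, QMem X D u v ∧ (∀ i, v i ≠ 0) ∧ lev G (tor v) ≠ 0) →
          QPicard X D ∧ QBrody X D) := by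
  obtain ⟨m, G, hG, h⟩ := orb_main hf hred hfin
  refine ⟨m, G, hG, fun N X D hX => ⟨(h N X D hX).1, fun a b c => ?_⟩⟩
  exact ⟨(h N X D hX).2 a b c, ((h N X D hX).2 a b c).brody⟩

end Pool.Agent.Results.MP_64ff02_ag.TorusOrbifoldGGL
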